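import Pool.Agent.R323.NA.C

/-!
# The exceptional set of the generalized abc conjecture

Let `n ≥ 3`, `κ > 0` and `ε > 0`. The number of admissible `n`-tuples `x` of integers (the sum is
`0`, the greatest common divisor is `1`, no proper subsum vanishes) with `|x_i| ≤ X` for all `i` and
`R(x_1 ⋯ x_n) ^ κ ≤ |x_i|` for some `i`, where `R` is the radical, is at most
`C X ^ ((1 - 1 / (2 ^ n - n - 2)) / κ + ε)`.

For `κ = 2 n - 5` this bounds the number of the exceptions of height at most `X` to the generalized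
abc conjecture; there are about `X ^ (n - 1)` admissible `n`-tuples of height at most `X`.

Idea of the proof: a prime `p` which divides some term divides the terms with an index in a set
`I(p)` with `1` to `n - 2` elements. As there are `2 ^ n - n - 2` such sets, there is a set `K` such
that the product `R_K` of the primes `p` with `I(p) = K` is at least `R ^ (1 / (2 ^ n - n - 2))`.
Let `Q = R / R_K`. The terms with an index outside of `K` are composed of primes dividing `Q`, so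
there are `X ^ ε` choices for them if `Q` is given. Their sum is not `0`, and the primes `p` with
`I(p) = K` divide this sum, so that there are `X ^ ε` choices for the other terms.
-/

set_option autoImplicit false

namespace Pool.Agent.Results.MP_7bfa24_nt.FewExceptionalTuples

theorem result (n : ℕ) (hn : 3 ≤ n) (κ ε : ℝ) (hκ : 0 < κ) (hε : 0 < ε) : ∃ C : ℝ,
    ∀ X : ℕ, 1 ≤ X → ∀ T : Finset (Fin n → ℤ),
      (∀ x ∈ T, ∑ i, x i = 0 ∧ Finset.univ.gcd x = 1 ∧
        (∀ I : Finset (Fin n), I.Nonempty → I ≠ Finset.univ → ∑ i ∈ I, x i ≠ 0) ∧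
        (∀ i, |x i| ≤ (X : ℤ)) ∧
        ∃ i, (((∏ j, x j).natAbs.primeFactors.prod id : ℕ) : ℝ) ^ κ ≤ ((|x i| : ℤ) : ℝ)) →
      (T.card : ℝ) ≤ C * (X : ℝ) ^ ((1 - 1 / ((2 ^ n - n - 2 : ℕ) : ℝ)) / κ + ε) := by
  obtain ⟨C, hC⟩ := Pool.Agent.R323.NA.main n hn (1 / κ) ε (by positivity) hε
  refine ⟨C, fun X hX T hT => ?_⟩
  have h1 := hC X hX T (fun x hx => by
    obtain ⟨h1, h2, h3, h4, i, h5⟩ := hT x hx
    refine ⟨⟨h1, h2, h3⟩, h4, ?_⟩
    have h6 : ((|x i| : ℤ) : ℝ) ≤ (X : ℝ) := by exact_mod_cast h4 i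
    have h7 : ((Pool.Agent.R323.NA.RR x : ℕ) : ℝ) ^ κ ≤ (X : ℝ) := h5.trans h6
    have h8 : (0 : ℝ) ≤ ((Pool.Agent.R323.NA.RR x : ℕ) : ℝ) := Nat.cast_nonneg _
    calc ((Pool.Agent.R323.NA.RR x : ℕ) : ℝ)
        = (((Pool.Agent.R323.NA.RR x : ℕ) : ℝ) ^ κ) ^ (1 / κ) := by
          rw [← Real.rpow_mul h8, mul_one_div_cancel hκ.ne', Real.rpow_one]
      _ ≤ (X : ℝ) ^ (1 / κ) := Real.rpow_le_rpow (by positivity) h7 (by positivity))
  have h2 : 1 / κ * (1 - 1 / ((2 ^ n - n - 2 : ℕ) : ℝ)) =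
      (1 - 1 / ((2 ^ n - n - 2 : ℕ) : ℝ)) / κ := by
    rw [one_div_mul_eq_div]
  rw [h2] at h1
  exact h1

end Pool.Agent.Results.MP_7bfa24_nt.FewExceptionalTuples
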