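import Pool.Agent.R599.GA.Rand

/-!
# The generalized abc inequality in random sets of integers

Let `n ≥ 3`, `E > 0` and `s = (1 - 1 / binom (n, ⌊n / 2⌋)) / E`, for instance `E = 2 n - 5`. Let `A` be a
random set of positive integers.

(1) Let two different integers `a`, `b` belong to `A` with probability at most `C (a b) ^ (-γ)`, for
instance because they are chosen independently with probabilities `O (m ^ (-γ))`. If `s < 2 γ` then
almost surely all but finitely many of the admissible `n`-tuples `x` such that the largest and the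
second largest of the different numbers `|x_i|` belong to `A` satisfy
`max |x_i| < R (x_1 ⋯ x_n) ^ E`; in particular this holds for the tuples with all `|x_i|` in `A`. If
`s + η < 2 γ` the probability that one of them with `max |x_i| ≥ y` does not is at most `B y ^ (-η)`.

(2) Let `m` belong to `A` with probability at most `C m ^ (-γ)`, without any condition on pairs. The
same holds with `γ` instead of `2 γ`, for the tuples such that the largest or the second largest of
the different numbers `|x_i|` belongs to `A`.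

So for the exponent `2 n - 5` of the conjecture the random sets in (1) may have
`X ^ (1 - (1 - 1 / b) / (4 n - 10) - ε)` elements up to `X`, `b = binom (n, ⌊n / 2⌋)`, that is
`X ^ (31 / 36 - ε)` for `n = 4`.

Proof. By the count of the starting result `SuperpolynomialHeights` there are `O (X ^ (s + ε))`
exceptional tuples with `max |x_i| ≤ X`. The second largest of the different numbers `|x_i|` is at
least `max |x_i| / n`: the terms with the largest absolute value are equal, since no subsum vanishes,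
so the other terms have a large sum. Then the lemma of Borel and Cantelli for random sets of
helper909 (`Pool.Agent.R909.RandSets`) applies.
-/

set_option autoImplicit false

namespace Pool.Agent.Results.MP_7bfa24_nt.RandomSets

open Filter Topology MeasureTheory
open SuperpolynomialHeights (Admissible radical)

/-- `max |x_i|` -/
def ht {n : ℕ} (x : Fin n → ℤ) : ℕ := Finset.univ.sup fun i => (x i).natAbs

/-- the largest of the numbers `|x_i|` which are different from `max |x_i|` (and `0` if there are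
none) -/
def second {n : ℕ} (x : Fin n → ℤ) : ℕ :=
  Finset.univ.sup fun i => if (x i).natAbs = ht x then 0 else (x i).natAbs

/-- the tuple satisfies `max |x_i| < R (x_1 ⋯ x_n) ^ E` -/
def Good {n : ℕ} (E : ℝ) (x : Fin n → ℤ) : Prop := (ht x : ℝ) < (radical (∏ j, x j) : ℝ) ^ E

/-- each `m` belongs to the random set `A` with probability at most `C * m ^ (-γ)` -/
def Sparse {Ω : Type} [MeasurableSpace Ω] (P : Measure Ω) (A : Ω → Set ℕ) (γ C : ℝ) : Prop :=
  ∀ m : ℕ, 0 < m → P {ω | m ∈ A ω} ≤ ENNReal.ofReal (C * (m : ℝ) ^ (-γ))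

/-- two different integers `a`, `b` belong to the random set `A` with probability at most
`C * (a * b) ^ (-γ)` -/
def PairSparse {Ω : Type} [MeasurableSpace Ω] (P : Measure Ω) (A : Ω → Set ℕ) (γ C : ℝ) : Prop :=
  ∀ a b : ℕ, 0 < a → 0 < b → a ≠ b →
    P {ω | a ∈ A ω ∧ b ∈ A ω} ≤ ENNReal.ofReal (C * ((a : ℝ) * b) ^ (-γ))

theorem result (n : ℕ) (hn : 3 ≤ n) (E s : ℝ) (hE : 0 < E)
    (hs : s = (1 - 1 / (n.choose (n / 2) : ℝ)) / E)
    (Ω : Type) [MeasurableSpace Ω] (P : Measure Ω) (A : Ω → Set ℕ) (γ C : ℝ) :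
    (PairSparse P A γ C →
      (s < 2 * γ → ∀ᵐ ω ∂P, {x : Fin n → ℤ | Admissible x ∧ (ht x ∈ A ω ∧ second x ∈ A ω) ∧
        ¬ Good E x}.Finite) ∧
      ∀ η : ℝ, 0 ≤ η → s + η < 2 * γ → ∃ B : ℝ, ∀ y : ℝ, 1 ≤ y →
        P {ω | ∃ x : Fin n → ℤ, Admissible x ∧ y ≤ ht x ∧ (ht x ∈ A ω ∧ second x ∈ A ω) ∧
          ¬ Good E x} ≤ ENNReal.ofReal (B * y ^ (-η))) ∧
    (Sparse P A γ C →
      (s < γ → ∀ᵐ ω ∂P, {x : Fin n → ℤ | Admissible x ∧ (ht x ∈ A ω ∨ second x ∈ A ω) ∧
        ¬ Good E x}.Finite) ∧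
      ∀ η : ℝ, 0 ≤ η → s + η < γ → ∃ B : ℝ, ∀ y : ℝ, 1 ≤ y →
        P {ω | ∃ x : Fin n → ℤ, Admissible x ∧ y ≤ ht x ∧ (ht x ∈ A ω ∨ second x ∈ A ω) ∧
          ¬ Good E x} ≤ ENNReal.ofReal (B * y ^ (-η))) := by
  have hn0 : (0 : ℝ) < n := by exact_mod_cast (by omega : 0 < n)
  have hn1 : (1 : ℝ) ≤ n := by exact_mod_cast (by omega : 1 ≤ n)
  have hs0 : 0 ≤ s := by
    rw [hs]
    exact div_nonneg (Pool.Agent.R599.GA.gap n) hE.le
  have h1 : ∀ x : Fin n → ℤ, (Admissible x ∧ ¬ Good E x) → (1 : ℝ) ≤ (ht x : ℝ) := by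
    intro x hx
    have : 0 < ht x := Pool.Agent.R599.GA.ht_pos hn hx.1
    exact_mod_cast this
  have hu : ∀ x : Fin n → ℤ, (Admissible x ∧ ¬ Good E x) → (ht x : ℝ) ≤ n * ((ht x : ℕ) : ℝ) := by
    intro x hx
    have := h1 x hx
    nlinarith
  have hv : ∀ x : Fin n → ℤ, (Admissible x ∧ ¬ Good E x) →
      (ht x : ℝ) ≤ n * ((second x : ℕ) : ℝ) := by
    intro x hx
    have : ht x ≤ n * second x := Pool.Agent.R599.GA.ht_le hn hx.1
    exact_mod_cast this
  have huv : ∀ x : Fin n → ℤ, (Admissible x ∧ ¬ Good E x) → ht x ≠ second x := by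
    intro x hx
    have : second x < ht x := Pool.Agent.R599.GA.sec_lt hn hx.1
    omega
  have hsum : ∀ p : ℝ, s < p → Summable fun x : {x : Fin n → ℤ // Admissible x ∧ ¬ Good E x} =>
      (ht x.1 : ℝ) ^ (-p) := by
    intro p hp
    rw [hs] at hp
    exact Pool.Agent.R599.GA.summable_bad hn hE hp
  constructor
  · intro hA
    have hA' : Pool.Agent.R909.RS.PairSparse P (fun m : ℕ => (m : ℝ)) A γ C := by
      intro a b ha hb hab
      exact hA a b (Nat.cast_pos.1 ha) (Nat.cast_pos.1 hb) hab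
    have key : ∀ η : ℝ, 0 ≤ η → s + η < 2 * γ →
        (∀ᵐ ω ∂P, {x : Fin n → ℤ | (Admissible x ∧ ¬ Good E x) ∧
          (ht x ∈ A ω ∧ second x ∈ A ω)}.Finite) ∧ ∃ B : ℝ, ∀ y : ℝ, 1 ≤ y →
        P {ω | ∃ x : Fin n → ℤ, (Admissible x ∧ ¬ Good E x) ∧ y ≤ (ht x : ℝ) ∧
          (ht x ∈ A ω ∧ second x ∈ A ω)} ≤ ENNReal.ofReal (B * y ^ (-η)) :=
      fun η hη h => Pool.Agent.R909.RS.pair (T := Fin n → ℤ) (H := fun x => (ht x : ℝ)) hA'
        (Q := fun x => Admissible x ∧ ¬ Good E x) h1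
        (u := fun x => ht x) (v := fun x => second x) (K := n) hn0 hu hv huv
        (by linarith) (p := 2 * γ - η) hη (by linarith) (hsum _ (by linarith))
    refine ⟨fun h => ?_, fun η hη h => ?_⟩
    · filter_upwards [(key 0 le_rfl (by linarith)).1] with ω hω
      refine hω.subset ?_
      rintro x ⟨h2, h3, h4⟩
      exact ⟨⟨h2, h4⟩, h3⟩
    · obtain ⟨B, hB⟩ := (key η hη h).2
      refine ⟨B, fun y hy => (measure_mono ?_).trans (hB y hy)⟩
      rintro ω ⟨x, h2, h3, h4, h5⟩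
      exact ⟨x, ⟨h2, h5⟩, h3, h4⟩
  · intro hA
    have hA' : Pool.Agent.R909.RS.Sparse P (fun m : ℕ => (m : ℝ)) A γ C := by
      intro m hm
      exact hA m (Nat.cast_pos.1 hm)
    have key : ∀ η : ℝ, 0 ≤ η → s + η < γ → ∀ u : (Fin n → ℤ) → ℕ,
        (∀ x, (Admissible x ∧ ¬ Good E x) → (ht x : ℝ) ≤ n * ((u x : ℕ) : ℝ)) →
        (∀ᵐ ω ∂P, {x : Fin n → ℤ | (Admissible x ∧ ¬ Good E x) ∧ u x ∈ A ω}.Finite) ∧
        ∃ B : ℝ, ∀ y : ℝ, 1 ≤ y →
        P {ω | ∃ x : Fin n → ℤ, (Admissible x ∧ ¬ Good E x) ∧ y ≤ (ht x : ℝ) ∧ u x ∈ A ω} ≤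
          ENNReal.ofReal (B * y ^ (-η)) :=
      fun η hη h u hu => Pool.Agent.R909.RS.single (T := Fin n → ℤ) (H := fun x => (ht x : ℝ)) hA'
        (Q := fun x => Admissible x ∧ ¬ Good E x) h1
        (u := u) (K := n) hn0 hu (by linarith) (p := γ - η) hη (by linarith)
        (hsum _ (by linarith))
    refine ⟨fun h => ?_, fun η hη h => ?_⟩
    · filter_upwards [(key 0 le_rfl (by linarith) _ hu).1, (key 0 le_rfl (by linarith) _ hv).1]
        with ω h2 h3
      refine (h2.union h3).subset ?_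
      rintro x ⟨h4, h5 | h5, h6⟩
      · exact Or.inl ⟨⟨h4, h6⟩, h5⟩
      · exact Or.inr ⟨⟨h4, h6⟩, h5⟩
    · obtain ⟨B, hB⟩ := (key η hη h _ hu).2
      obtain ⟨B', hB'⟩ := (key η hη h _ hv).2
      refine ⟨|B| + |B'|, fun y hy => ?_⟩
      have hy0 : 0 ≤ y ^ (-η) := Real.rpow_nonneg (by linarith) _
      have h6 : {ω | ∃ x : Fin n → ℤ, Admissible x ∧ y ≤ ht x ∧
          (ht x ∈ A ω ∨ second x ∈ A ω) ∧ ¬ Good E x} ⊆
          {ω | ∃ x : Fin n → ℤ, (Admissible x ∧ ¬ Good E x) ∧ y ≤ (ht x : ℝ) ∧ ht x ∈ A ω} ∪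
          {ω | ∃ x : Fin n → ℤ, (Admissible x ∧ ¬ Good E x) ∧ y ≤ (ht x : ℝ) ∧
            second x ∈ A ω} := by
        rintro ω ⟨x, h2, h3, h4 | h4, h5⟩
        · exact Or.inl ⟨x, ⟨h2, h5⟩, h3, h4⟩
        · exact Or.inr ⟨x, ⟨h2, h5⟩, h3, h4⟩
      refine (measure_mono h6).trans ((measure_union_le _ _).trans ?_)
      refine (add_le_add (hB y hy) (hB' y hy)).trans ?_
      have h7 : ENNReal.ofReal (B * y ^ (-η)) ≤ ENNReal.ofReal (|B| * y ^ (-η)) :=
        ENNReal.ofReal_le_ofReal (mul_le_mul_of_nonneg_right (le_abs_self B) hy0)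
      have h8 : ENNReal.ofReal (B' * y ^ (-η)) ≤ ENNReal.ofReal (|B'| * y ^ (-η)) :=
        ENNReal.ofReal_le_ofReal (mul_le_mul_of_nonneg_right (le_abs_self B') hy0)
      refine (add_le_add h7 h8).trans (le_of_eq ?_)
      rw [← ENNReal.ofReal_add (by positivity) (by positivity), add_mul]

end Pool.Agent.Results.MP_7bfa24_nt.RandomSets
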