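import Pool.Agent.Results.MP_7bfa24_nt.SuperpolynomialHeights
import Pool.Agent.R482.ST.Star

/-!
# The generalized abc inequality for all tuples with maximum near powers, orbits and other sequences

Let `f_k`, `k = 0, 1, 2, …`, be positive functions on `(a₀, ∞)`, `a₀ ≥ 0`, such that `f_k(t) / t` is nondecreasing, and such
that the sequence `f_k(t)` has exponent of convergence at most `τ` for each `t > a₀`: for instance `f_k(t) = v_k t`
(dilatations; `τ` the exponent of convergence of `v_k > 0`), `f_k(t) = t ^ (v_k)` for exponents `v_k ≥ 1` (`τ = 0`), or the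
orbits `f_k(t) = g (g (⋯ g (t)))` of any map `g` with `g(t) > t` and `g(t) / t` nondecreasing (`τ = 0`).
Let `n ≥ 3`, `b = binom (n, ⌊n / 2⌋)`, `κ > 0` and `θ < 1`. For all `α > a₀` outside a set of Hausdorff dimension at most
`(κ (1 - 1 / b) + τ) / (1 - θ)` and all `c`, for all but finitely many `k`, ALL admissible `n`-tuples `x` with
`|max |x_i| - f_k(α)| ≤ c f_k(α) ^ θ` satisfy `max |x_i| < R (x_1 ⋯ x_n) ^ (1 / κ)`. For the exponent `1 / κ = 2 n - 5` of the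
conjecture the dimension is (for `τ = θ = 0`) at most `(1 - 1 / b) / (2 n - 5)`. Letting `κ` tend to zero we find for all `α`
outside a set of dimension at most `τ / (1 - θ)`, and for ALL `n ≥ 3`, constants `η` and `C` such that
`max |x_i| ≤ C R (x_1 ⋯ x_n) ^ η` for ALL admissible `n`-tuples in the windows.
-/

set_option autoImplicit false

namespace Pool.Agent.Results.MP_7bfa24_nt.StarshapedHeights

open Filter Topology
open SuperpolynomialHeights (Admissible radical Tuples)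

/-- the functions `f n` are positive on `(a, ∞)`, `a ≥ 0`, and `f n x / x` is nondecreasing there -/
def Starshaped (a : ℝ) (f : ℕ → ℝ → ℝ) : Prop :=
  0 ≤ a ∧ ∀ n : ℕ, ∀ x y : ℝ, a < x → x ≤ y → 0 < f n x ∧ f n x / x ≤ f n y / y

/-- for each `x > a` the exponent of convergence of the sequence `f n x` is at most `τ` -/
def ExpLe (a : ℝ) (f : ℕ → ℝ → ℝ) (τ : ℝ) : Prop :=
  ∀ x : ℝ, a < x → ∀ t : ℝ, τ < t → Summable (fun n : ℕ => (f n x) ^ (-t))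

/-- `max |x_i|` -/
def ht {n : ℕ} (x : Fin n → ℤ) : ℕ := Finset.univ.sup fun i => (x i).natAbs

/-- the admissible tuples with `R (x_1 ⋯ x_n) ≤ (max |x_i|) ^ κ` -/
def Exc (n : ℕ) (κ : ℝ) : Set (Fin n → ℤ) := {x | Admissible x ∧ (radical (∏ j, x j) : ℝ) ≤ (ht x : ℝ) ^ κ}

lemma le_ht {n : ℕ} (x : Fin n → ℤ) (i : Fin n) : (x i).natAbs ≤ ht x :=
  Finset.le_sup (f := fun i => (x i).natAbs) (Finset.mem_univ i)

lemma finite_ht (n : ℕ) (X : ℝ) : {x : Fin n → ℤ | (ht x : ℝ) ≤ X}.Finite := by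
  refine (Finset.finite_toSet (Fintype.piFinset fun _ : Fin n => Finset.Icc (-⌊X⌋) ⌊X⌋)).subset ?_
  intro x hx
  rw [Finset.mem_coe, Fintype.mem_piFinset]
  intro i
  have h1 : ((x i).natAbs : ℝ) ≤ X := le_trans (by exact_mod_cast le_ht x i) hx
  rw [Nat.cast_natAbs, Int.cast_abs, abs_le] at h1
  rw [Finset.mem_Icc]
  constructor
  · rw [neg_le]
    apply Int.le_floor.2
    push_cast
    linarith
  · exact Int.le_floor.2 h1.2

lemma choose_pos (n : ℕ) : (1 : ℝ) ≤ (n.choose (n / 2) : ℝ) := by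
  exact_mod_cast Nat.choose_pos (Nat.div_le_self n 2)

lemma gap (n : ℕ) : 0 ≤ 1 - 1 / (n.choose (n / 2) : ℝ) := by
  have h := choose_pos n
  rw [sub_nonneg, div_le_one (by linarith)]
  exact h

lemma count (n : ℕ) (hn : 3 ≤ n) (κ : ℝ) (hκ : 0 < κ) (ε : ℝ) (hε : 0 < ε) : ∃ K : ℝ, ∀ X : ℝ, 1 ≤ X →
    {x | x ∈ Exc n κ ∧ (ht x : ℝ) ≤ X}.Finite ∧
      ({x | x ∈ Exc n κ ∧ (ht x : ℝ) ≤ X}.ncard : ℝ) ≤ K * X ^ (κ * (1 - 1 / (n.choose (n / 2) : ℝ)) + ε) := by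
  set g : ℝ := 1 - 1 / (n.choose (n / 2) : ℝ) with hg
  have hg0 : 0 ≤ g := gap n
  obtain ⟨c, hc, Y₀, hY⟩ := SuperpolynomialHeights.result n hn (ε / κ) (by positivity)
  -- for large `Y` the exponent `c log log Y` is at least `2 / κ`
  have hlim : Tendsto (fun Y : ℕ => c * Real.log (Real.log (Y : ℝ))) atTop atTop :=
    (Real.tendsto_log_atTop.comp (Real.tendsto_log_atTop.comp tendsto_natCast_atTop_atTop)).const_mul_atTop hc
  obtain ⟨Y₁, hY₁⟩ := eventually_atTop.1 (hlim.eventually_ge_atTop (2 / κ))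
  set Y₂ : ℕ := max (max Y₀ Y₁) 2 with hY₂
  set X₁ : ℝ := ((Y₂ : ℝ) + 1) ^ (1 / κ) with hX₁
  refine ⟨({x : Fin n → ℤ | (ht x : ℝ) ≤ X₁}.ncard : ℝ) + 1, fun X hX => ?_⟩
  have hX0 : 0 < X := by linarith
  have hfin : {x | x ∈ Exc n κ ∧ (ht x : ℝ) ≤ X}.Finite := (finite_ht n X).subset fun x hx => hx.2
  refine ⟨hfin, ?_⟩
  have hexp : 0 ≤ κ * g + ε := by positivity
  have hp1 : 1 ≤ X ^ (κ * g + ε) := Real.one_le_rpow hX hexp
  have hK0 : (0 : ℝ) ≤ ({x : Fin n → ℤ | (ht x : ℝ) ≤ X₁}.ncard : ℝ) := Nat.cast_nonneg _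
  rcases le_or_gt X X₁ with hXX | hXX
  · have h1 : {x | x ∈ Exc n κ ∧ (ht x : ℝ) ≤ X} ⊆ {x : Fin n → ℤ | (ht x : ℝ) ≤ X₁} := fun x hx => hx.2.trans hXX
    have h2 : ({x | x ∈ Exc n κ ∧ (ht x : ℝ) ≤ X}.ncard : ℝ) ≤ ({x : Fin n → ℤ | (ht x : ℝ) ≤ X₁}.ncard : ℝ) := by
      exact_mod_cast Set.ncard_le_ncard h1 (finite_ht n X₁)
    nlinarith
  · have hXκ : (Y₂ : ℝ) + 1 < X ^ κ := by
      calc (Y₂ : ℝ) + 1 = X₁ ^ κ := by
            rw [hX₁, ← Real.rpow_mul (by positivity), one_div_mul_cancel hκ.ne', Real.rpow_one]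
        _ < X ^ κ := Real.rpow_lt_rpow (by positivity) hXX hκ
    set Y : ℕ := ⌊X ^ κ⌋₊ with hYd
    have hYX : (Y : ℝ) ≤ X ^ κ := Nat.floor_le (by positivity)
    have hYX' : X ^ κ < (Y : ℝ) + 1 := Nat.lt_floor_add_one _
    have hYge : Y₂ ≤ Y := Nat.le_floor (by linarith)
    have hY2 : 2 ≤ Y := le_trans (le_max_right _ _) hYge
    have hY2' : (2 : ℝ) ≤ Y := by exact_mod_cast hY2
    obtain ⟨hf, hcard⟩ := hY Y ((le_max_left _ _).trans ((le_max_left _ _).trans hYge))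
    have hcl := hY₁ Y ((le_max_right _ _).trans ((le_max_left _ _).trans hYge))
    have hXY : X ≤ (Y : ℝ) ^ (c * Real.log (Real.log (Y : ℝ))) := by
      have h1 : X ^ κ ≤ (Y : ℝ) ^ 2 := by nlinarith
      calc X = (X ^ κ) ^ (1 / κ) := by
            rw [← Real.rpow_mul hX0.le, mul_one_div_cancel hκ.ne', Real.rpow_one]
        _ ≤ ((Y : ℝ) ^ 2) ^ (1 / κ) := Real.rpow_le_rpow (by positivity) h1 (by positivity)
        _ = (Y : ℝ) ^ (2 / κ) := by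
            rw [← Real.rpow_natCast (Y : ℝ) 2, ← Real.rpow_mul (by positivity)]
            congr 1
            push_cast
            ring
        _ ≤ _ := Real.rpow_le_rpow_of_exponent_le (by linarith) hcl
    have hsub : {x | x ∈ Exc n κ ∧ (ht x : ℝ) ≤ X} ⊆ Tuples n c Y := by
      rintro x ⟨⟨h1, h2⟩, h3⟩
      refine ⟨h1, Nat.le_floor (h2.trans (Real.rpow_le_rpow (Nat.cast_nonneg _) h3 hκ.le)), fun i => ?_⟩
      have h4 : (((x i).natAbs : ℕ) : ℝ) ≤ ht x := by exact_mod_cast le_ht x i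
      rw [Nat.cast_natAbs] at h4
      exact h4.trans (h3.trans hXY)
    have h5 := Set.ncard_le_ncard hsub hf
    calc ({x | x ∈ Exc n κ ∧ (ht x : ℝ) ≤ X}.ncard : ℝ) ≤ ((Tuples n c Y).ncard : ℝ) := by exact_mod_cast h5
      _ ≤ (Y : ℝ) ^ (g + ε / κ) := hcard
      _ ≤ (X ^ κ) ^ (g + ε / κ) := Real.rpow_le_rpow (by positivity) hYX (by positivity)
      _ = X ^ (κ * g + ε) := by
          rw [← Real.rpow_mul hX0.le]
          congr 1
          field_simp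
      _ ≤ _ := by nlinarith

lemma win {n : ℕ} (hn : 3 ≤ n) {κ : ℝ} (hκ : 0 < κ) {a : ℝ} {f : ℕ → ℝ → ℝ} {τ θ : ℝ} (hf : Starshaped a f) (hτ : 0 ≤ τ)
    (hE : ExpLe a f τ) (hθ : θ < 1) :
    ∃ E : Set ℝ, dimH E ≤ ENNReal.ofReal ((κ * (1 - 1 / (n.choose (n / 2) : ℝ)) + τ) / (1 - θ)) ∧
      ∀ α : ℝ, a < α → α ∉ E → ∀ c : ℝ, ∃ k₀ : ℕ, ∀ k : ℕ, k₀ ≤ k → ∀ x : Fin n → ℤ, Admissible x →
        |(ht x : ℝ) - f k α| ≤ c * (f k α) ^ θ → (ht x : ℝ) ^ κ < (radical (∏ j, x j) : ℝ) := by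
  obtain ⟨E, h1, h2⟩ := Pool.Agent.R482.ST.windows (Exc n κ) (fun x => (ht x : ℝ)) hf hτ hE
    (s := κ * (1 - 1 / (n.choose (n / 2) : ℝ))) (mul_nonneg hκ.le (gap n)) hθ (count n hn κ hκ)
  refine ⟨E, h1, fun α hα hαE c => ?_⟩
  obtain ⟨k₀, hk⟩ := h2 α hα hαE c
  refine ⟨k₀, fun k hk1 x hx hw => ?_⟩
  by_contra hcon
  push Not at hcon
  exact absurd (hk k hk1 x ⟨hx, hcon⟩) (not_lt.2 hw)

lemma one_le_radical (m : ℤ) : 1 ≤ radical m := by
  unfold radical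
  exact Finset.prod_pos fun p hp => (Nat.prime_of_mem_primeFactors hp).pos

/-- **Theorem.** Let `f` be starshaped functions on `(a, ∞)` of exponent of convergence at most `τ ≥ 0` and `θ < 1`. (1) Let
`n ≥ 3`, `b = binom (n, ⌊n / 2⌋)` and `η > 0`. There is a set `E` of Hausdorff dimension at most
`((1 - 1 / b) / η + τ) / (1 - θ)` such that for each `α > a` outside `E`, each `c` and all but finitely many `k`, ALL admissible
`n`-tuples `x` with `|max |x_i| - f_k(α)| ≤ c f_k(α) ^ θ` satisfy `max |x_i| < R (x_1 ⋯ x_n) ^ η`. (2) There is a set `E` of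
dimension at most `τ / (1 - θ)` such that for each `α > a` outside `E`, each `c` and ALL `n ≥ 3` there are `η` and `C` such that
`max |x_i| ≤ C R (x_1 ⋯ x_n) ^ η` for ALL `k` and ALL admissible `n`-tuples `x` with `|max |x_i| - f_k(α)| ≤ c f_k(α) ^ θ`.
(3) The functions `v_n x`, `v_n > 0`, are starshaped on `(0, ∞)`, of exponent `τ` if `v` has exponent of convergence at most
`τ`; the functions `x ^ (v_n)`, `v_n ≥ 1`, are starshaped on `(1, ∞)`, of exponent `0` if the sums of `exp (-t v_n)` converge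
for `t > 0`; and the iterates of a map `g` with `g(x) > x` for `x > a` and `g(x) / x` nondecreasing are starshaped on
`(a, ∞)`, of exponent `0`. -/
theorem result :
    (∀ (n : ℕ) (a : ℝ) (f : ℕ → ℝ → ℝ) (τ θ η : ℝ), 3 ≤ n → Starshaped a f → 0 ≤ τ → ExpLe a f τ → θ < 1 → 0 < η →
      ∃ E : Set ℝ, dimH E ≤ ENNReal.ofReal (((1 - 1 / (n.choose (n / 2) : ℝ)) / η + τ) / (1 - θ)) ∧
        ∀ α : ℝ, a < α → α ∉ E → ∀ c : ℝ, ∃ k₀ : ℕ, ∀ k : ℕ, k₀ ≤ k → ∀ x : Fin n → ℤ, Admissible x →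
          |(ht x : ℝ) - f k α| ≤ c * (f k α) ^ θ → (ht x : ℝ) < (radical (∏ j, x j) : ℝ) ^ η) ∧
    (∀ (a : ℝ) (f : ℕ → ℝ → ℝ) (τ θ : ℝ), Starshaped a f → 0 ≤ τ → ExpLe a f τ → θ < 1 →
      ∃ E : Set ℝ, dimH E ≤ ENNReal.ofReal (τ / (1 - θ)) ∧ ∀ α : ℝ, a < α → α ∉ E → ∀ c : ℝ, ∀ n : ℕ, 3 ≤ n →
        ∃ η C : ℝ, ∀ (k : ℕ) (x : Fin n → ℤ), Admissible x →
          |(ht x : ℝ) - f k α| ≤ c * (f k α) ^ θ → (ht x : ℝ) ≤ C * (radical (∏ j, x j) : ℝ) ^ η) ∧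
    (∀ (v : ℕ → ℝ) (τ : ℝ), (∀ n, 0 < v n) → (∀ t : ℝ, τ < t → Summable (fun n : ℕ => (v n) ^ (-t))) →
      Starshaped 0 (fun n x => v n * x) ∧ ExpLe 0 (fun n x => v n * x) τ) ∧
    (∀ v : ℕ → ℝ, (∀ n, 1 ≤ v n) → (∀ t : ℝ, 0 < t → Summable fun n : ℕ => Real.exp (-(t * v n))) →
      Starshaped 1 (fun n x => x ^ (v n)) ∧ ExpLe 1 (fun n x => x ^ (v n)) 0) ∧
    (∀ (a : ℝ) (g : ℝ → ℝ), 0 ≤ a → (∀ x y : ℝ, a < x → x ≤ y → g x / x ≤ g y / y) → (∀ x : ℝ, a < x → x < g x) →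
      Starshaped a (fun n x => g^[n] x) ∧ ExpLe a (fun n x => g^[n] x) 0) := by
  have hroot : ∀ {n : ℕ} (x : Fin n → ℤ) {η : ℝ}, 0 < η → (ht x : ℝ) ^ (1 / η) < (radical (∏ j, x j) : ℝ) →
      (ht x : ℝ) < (radical (∏ j, x j) : ℝ) ^ η := by
    intro n x η hη h
    have h0 : (0 : ℝ) ≤ (ht x : ℝ) := Nat.cast_nonneg _
    calc (ht x : ℝ) = ((ht x : ℝ) ^ (1 / η)) ^ η := by
          rw [← Real.rpow_mul h0, one_div_mul_cancel hη.ne', Real.rpow_one]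
      _ < _ := Real.rpow_lt_rpow (by positivity) h hη
  refine ⟨fun n a f τ θ η hn hf hτ hE hθ hη => ?_, fun a f τ θ hf hτ hE hθ => ?_,
    Pool.Agent.R482.ST.ex_mul, Pool.Agent.R482.ST.ex_pow, Pool.Agent.R482.ST.ex_orbit⟩
  · obtain ⟨E, h1, h2⟩ := win hn (κ := 1 / η) (by positivity) hf hτ hE hθ
    refine ⟨E, h1.trans (le_of_eq ?_), fun α hα hαE c => ?_⟩
    · congr 3
      ring
    · obtain ⟨k₀, hk⟩ := h2 α hα hαE c
      exact ⟨k₀, fun k hk1 x hx hw => hroot x hη (hk k hk1 x hx hw)⟩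
  · have hall : ∀ n m : ℕ, ∃ E : Set ℝ,
        dimH E ≤ ENNReal.ofReal (((1 - 1 / ((n + 3).choose ((n + 3) / 2) : ℝ)) * (1 / ((m : ℝ) + 1)) + τ) / (1 - θ)) ∧
        ∀ α : ℝ, a < α → α ∉ E → ∀ c : ℝ, ∃ k₀ : ℕ, ∀ k : ℕ, k₀ ≤ k → ∀ x : Fin (n + 3) → ℤ, Admissible x →
          |(ht x : ℝ) - f k α| ≤ c * (f k α) ^ θ → (ht x : ℝ) < (radical (∏ j, x j) : ℝ) ^ ((m : ℝ) + 1) := by
      intro n m
      have hm0 : (0 : ℝ) < (m : ℝ) + 1 := by positivity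
      obtain ⟨E, h1, h2⟩ := win (n := n + 3) (by omega) (κ := 1 / ((m : ℝ) + 1)) (by positivity) hf hτ hE hθ
      refine ⟨E, h1.trans (le_of_eq ?_), fun α hα hαE c => ?_⟩
      · congr 3
        ring
      · obtain ⟨k₀, hk⟩ := h2 α hα hαE c
        exact ⟨k₀, fun k hk1 x hx hw => hroot x hm0 (hk k hk1 x hx hw)⟩
    choose G hG1 hG2 using hall
    refine ⟨⋃ n, ⋂ m, G n m, ?_, fun α hα hαE c n hn => ?_⟩
    · rw [dimH_iUnion]
      refine iSup_le fun n => ?_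
      have hlim : Tendsto (fun m : ℕ => ENNReal.ofReal
          (((1 - 1 / ((n + 3).choose ((n + 3) / 2) : ℝ)) * (1 / ((m : ℝ) + 1)) + τ) / (1 - θ))) atTop
          (𝓝 (ENNReal.ofReal (((1 - 1 / ((n + 3).choose ((n + 3) / 2) : ℝ)) * 0 + τ) / (1 - θ)))) :=
        ENNReal.tendsto_ofReal (((tendsto_one_div_add_atTop_nhds_zero_nat.const_mul _).add_const τ).div_const (1 - θ))
      rw [mul_zero, zero_add] at hlim
      exact ge_of_tendsto' hlim fun m => (dimH_mono (Set.iInter_subset _ m)).trans (hG1 n m)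
    · obtain ⟨n, rfl⟩ : ∃ m, n = m + 3 := ⟨n - 3, by omega⟩
      have h1 : α ∉ ⋂ m, G n m := fun h => hαE (Set.mem_iUnion.2 ⟨n, h⟩)
      rw [Set.mem_iInter] at h1
      push Not at h1
      obtain ⟨m, hm⟩ := h1
      obtain ⟨k₀, hk⟩ := hG2 n m α hα hm c
      obtain ⟨C, hC0, hC⟩ : ∃ C : ℝ, 0 ≤ C ∧ ∀ k : ℕ, k < k₀ → f k α + |c * (f k α) ^ θ| ≤ C := by
        have hpos : ∀ i, 0 ≤ f i α + |c * (f i α) ^ θ| := fun i => by
          have := (hf.2 i α α hα le_rfl).1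
          positivity
        exact ⟨∑ k ∈ Finset.range k₀, (f k α + |c * (f k α) ^ θ|), Finset.sum_nonneg fun i _ => hpos i, fun k hk =>
          Finset.single_le_sum (f := fun k => f k α + |c * (f k α) ^ θ|) (fun i _ => hpos i) (Finset.mem_range.2 hk)⟩
      refine ⟨(m : ℝ) + 1, C + 1, fun k x hx hw => ?_⟩
      have hR : (1 : ℝ) ≤ (radical (∏ j, x j) : ℝ) := by exact_mod_cast one_le_radical _
      have hRp : (1 : ℝ) ≤ (radical (∏ j, x j) : ℝ) ^ ((m : ℝ) + 1) := Real.one_le_rpow hR (by positivity)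
      rcases Nat.lt_or_ge k k₀ with hlt | hge
      · have h3 := (abs_le.1 hw).2
        have h4 := hC k hlt
        have h5 := le_abs_self (c * (f k α) ^ θ)
        nlinarith
      · have h3 := hk k hge x hx hw
        nlinarith

end Pool.Agent.Results.MP_7bfa24_nt.StarshapedHeights
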